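import Pool.Agent.Helper7.SC.Frames

set_option autoImplicit false

/-!
StL: the law of the noise is a probability. StA2: the Fourier identity for `X`.
-/

namespace Pool.Agent.Helper99.SC

open Finset Pool.Agent.Helper7.SC

lemma e_zero : e 0 = 1 := by simp [e]

lemma e_add (x y : ℝ) : e (x + y) = e x * e y := by
  unfold e
  rw [← Complex.exp_add]
  congr 1
  push_cast
  ring

lemma e_sum {ι : Type*} (s : Finset ι) (f : ι → ℝ) : e (∑ i ∈ s, f i) = ∏ i ∈ s, e (f i) := by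
  classical
  induction s using Finset.induction_on with
  | empty => simp [e_zero]
  | insert a s ha ih => rw [sum_insert ha, prod_insert ha, e_add, ih]

lemma e_conj (x : ℝ) : (starRingEnd ℂ) (e x) = e (-x) := by
  unfold e
  rw [← Complex.exp_conj]
  congr 1
  simp only [map_mul, Complex.conj_ofReal, Complex.conj_I, map_ofNat]
  push_cast
  ring

lemma e_int (n : ℤ) : e n = 1 := by
  unfold e
  have := Complex.exp_int_mul_two_pi_mul_I n
  rw [← this]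
  congr 1
  push_cast
  ring

lemma e_pow (y : ℝ) (n : ℕ) : e y ^ n = e (n * y) := by
  induction n with
  | zero => simp [e_zero]
  | succ n ih => rw [pow_succ, ih, ← e_add]; push_cast; ring_nf

lemma e_eq_one {y : ℝ} (h : e y = 1) : ∃ n : ℤ, y = n := by
  unfold e at h
  obtain ⟨n, hn⟩ := Complex.exp_eq_one_iff.mp h
  refine ⟨n, ?_⟩
  have h1 : (2 * Real.pi * Complex.I : ℂ) ≠ 0 := by
    simp [Real.pi_ne_zero]
  have h2 : (y : ℂ) = n := by
    have h3 : (y : ℂ) * (2 * Real.pi * Complex.I) = n * (2 * Real.pi * Complex.I) := by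
      rw [← hn]; ring
    exact mul_right_cancel₀ h1 h3
  exact_mod_cast h2

lemma e_eq (y : ℝ) :
    e y = (Real.cos (2 * Real.pi * y) : ℂ) + (Real.sin (2 * Real.pi * y) : ℂ) * Complex.I := by
  unfold e
  have h : (2 * Real.pi * y * Complex.I : ℂ) = ((2 * Real.pi * y : ℝ) : ℂ) * Complex.I := by
    push_cast; ring
  rw [h, Complex.exp_mul_I, ← Complex.ofReal_cos, ← Complex.ofReal_sin]

/-- Orthogonality. -/
lemma orth (x : ℕ) (hx : 0 < x) (n : ℤ) :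
    ∑ j ∈ range x, e (j * ((n : ℝ) / x)) = if ((n : ℤ) : ZMod x) = 0 then (x : ℂ) else 0 := by
  have hx' : (x : ℝ) ≠ 0 := by positivity
  by_cases h : ((n : ℤ) : ZMod x) = 0
  · rw [if_pos h]
    rw [ZMod.intCast_zmod_eq_zero_iff_dvd] at h
    obtain ⟨k, hk⟩ := h
    have h1 : ∀ j ∈ range x, e (j * ((n : ℝ) / x)) = 1 := by
      intro j _
      have h2 : (j : ℝ) * ((n : ℝ) / x) = ((j * k : ℤ) : ℝ) := by
        rw [hk]
        push_cast
        field_simp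
      rw [h2, e_int]
    rw [sum_congr rfl h1]
    simp
  · rw [if_neg h]
    have h1 : ∀ j ∈ range x, e (j * ((n : ℝ) / x)) = e ((n : ℝ) / x) ^ j := by
      intro j _
      rw [e_pow]
    rw [sum_congr rfl h1]
    have hne : e ((n : ℝ) / x) ≠ 1 := by
      intro h2
      obtain ⟨k, hk⟩ := e_eq_one h2
      apply h
      rw [ZMod.intCast_zmod_eq_zero_iff_dvd]
      refine ⟨k, ?_⟩
      rw [div_eq_iff hx'] at hk
      have : (n : ℝ) = ((x * k : ℤ) : ℝ) := by rw [hk]; push_cast; ring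
      exact_mod_cast this
    rw [geom_sum_eq hne, e_pow, mul_div_cancel₀ _ hx', e_int]
    simp

/-- One coordinate of the noise. -/
lemma sum_wt {Q : ℕ} (hQ : 0 < Q) (p y : ℝ) :
    ∑ s : St Q, (wt Q p s : ℂ) * e (jump Q s * y) = (v Q p y : ℂ) := by
  have hQ' : (Q : ℂ) ≠ 0 := by exact_mod_cast hQ.ne'
  rw [Fintype.sum_option, Fintype.sum_prod_type]
  have h1 : ∀ i j : Fin Q, (wt Q p (some (i, j)) : ℂ) * e (jump Q (some (i, j)) * y)
      = (p / (Q : ℂ) ^ 2) * (e (((i : ℕ) : ℝ) * y) * (starRingEnd ℂ) (e (((j : ℕ) : ℝ) * y))) := by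
    intro i j
    rw [e_conj, ← e_add]
    simp only [wt, jump]
    push_cast
    congr 2
    ring
  simp only [h1]
  have h2 : ((w Q y : ℝ) : ℂ) = (1 / (Q : ℂ) ^ 2) * ∑ i : Fin Q, ∑ j : Fin Q,
      (e (((i : ℕ) : ℝ) * y) * (starRingEnd ℂ) (e (((j : ℕ) : ℝ) * y))) := by
    unfold w
    rw [← Complex.normSq_eq_norm_sq, Complex.normSq_eq_conj_mul_self, map_mul, map_sum]
    rw [Finset.sum_range, Finset.sum_range]
    simp only [← Finset.mul_sum, ← Finset.sum_mul]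
    simp only [map_div₀, map_one, map_natCast]
    ring
  have h3 : ∑ i : Fin Q, ∑ j : Fin Q, (p / (Q : ℂ) ^ 2) *
      (e (((i : ℕ) : ℝ) * y) * (starRingEnd ℂ) (e (((j : ℕ) : ℝ) * y))) = p * (w Q y : ℂ) := by
    rw [h2]
    simp only [← Finset.mul_sum]
    ring
  rw [h3]
  simp only [wt, jump, v]
  push_cast
  rw [zero_mul, e_zero]
  ring

lemma sum_wt_real {Q : ℕ} (hQ : 0 < Q) (p : ℝ) : ∑ s : St Q, wt Q p s = 1 := by
  have h := sum_wt hQ p 0
  have hw : w Q 0 = 1 := by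
    unfold w
    have hQ' : (Q : ℂ) ≠ 0 := by exact_mod_cast hQ.ne'
    simp [e_zero, hQ']
  simp only [mul_zero, e_zero, mul_one, v, hw, sub_self, sub_zero] at h
  exact_mod_cast h

theorem stL : StL := by
  intro b q r m K p hb hp0 hp1
  have hP : ∀ ω : Fin m → St (b ^ q), 0 ≤ P p ω := by
    intro ω
    refine prod_nonneg fun B _ => ?_
    rcases ω B with _ | t
    · simp only [wt]; linarith
    · simp only [wt]; positivity
  refine ⟨fun t => ?_, ?_⟩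
  · refine sum_nonneg fun ω _ => ?_
    split_ifs
    · exact hP ω
    · exact le_rfl
  · intro _
    unfold law
    rw [sum_comm]
    simp only [sum_ite_eq, mem_univ, if_true]
    unfold P
    have h1 := Finset.prod_univ_sum (fun _ : Fin m => (univ : Finset (St (b ^ q))))
      (fun _ s => wt (b ^ q) p s)
    rw [Fintype.piFinset_univ] at h1
    rw [← h1]
    simp [sum_wt_real (Q := b ^ q) (by positivity) p]

/-- The characteristic function of the noise. -/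
lemma hat (b q r m K : ℕ) (hb : 2 ≤ b) (p : ℝ) (j : ℤ) :
    ∑ ω : Fin m → St (b ^ q), (P p ω : ℂ) * e ((z b q r ω : ℤ) * ((j : ℝ) / (b : ℝ) ^ K))
      = (nuhat b q r m K p j : ℂ) := by
  have h1 := Finset.prod_univ_sum (fun _ : Fin m => (univ : Finset (St (b ^ q))))
      (fun B s => (wt (b ^ q) p s : ℂ) *
        e (jump (b ^ q) s * ((b : ℝ) ^ (r + (B : ℕ) * q) * ((j : ℝ) / (b : ℝ) ^ K))))
  rw [Fintype.piFinset_univ] at h1
  have h2 : ∀ B : Fin m, ∑ s : St (b ^ q), (wt (b ^ q) p s : ℂ) *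
        e (jump (b ^ q) s * ((b : ℝ) ^ (r + (B : ℕ) * q) * ((j : ℝ) / (b : ℝ) ^ K)))
      = (v (b ^ q) p ((b : ℝ) ^ (r + (B : ℕ) * q) * ((j : ℝ) / (b : ℝ) ^ K)) : ℂ) := fun B =>
    sum_wt (by positivity) p _
  simp only [h2] at h1
  unfold nuhat
  rw [Complex.ofReal_prod, h1]
  refine sum_congr rfl fun ω _ => ?_
  rw [prod_mul_distrib]
  unfold P
  rw [Complex.ofReal_prod]
  congr 1
  rw [← e_sum]
  congr 1
  unfold z
  push_cast
  rw [sum_mul]
  refine sum_congr rfl fun B _ => ?_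
  ring

/-- The law by its characteristic function. -/
lemma law_eq (b q r m K : ℕ) (hb : 2 ≤ b) (p : ℝ) (n : ℤ) :
    (b : ℂ) ^ K * (law b q r m K p (n : ZMod (b ^ K)) : ℂ) =
      ∑ j ∈ range (b ^ K), (nuhat b q r m K p j : ℂ) * e (-(n * ((j : ℝ) / (b : ℝ) ^ K))) := by
  have hx : 0 < b ^ K := by positivity
  have h1 : ∀ j ∈ range (b ^ K), (nuhat b q r m K p j : ℂ) * e (-(n * ((j : ℝ) / (b : ℝ) ^ K)))
      = ∑ ω : Fin m → St (b ^ q), (P p ω : ℂ) *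
        e (j * (((z b q r ω - n : ℤ) : ℝ) / ((b ^ K : ℕ) : ℝ))) := by
    intro j _
    have h2 := hat b q r m K hb p (j : ℤ)
    rw [← h2, sum_mul]
    refine sum_congr rfl fun ω _ => ?_
    rw [mul_assoc, ← e_add]
    congr 2
    push_cast
    ring
  rw [sum_congr rfl h1, sum_comm]
  unfold law
  rw [Complex.ofReal_sum, mul_sum]
  refine sum_congr rfl fun ω _ => ?_
  rw [← mul_sum, orth _ hx]
  have h3 : (((z b q r ω - n : ℤ) : ℤ) : ZMod (b ^ K)) = 0 ↔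
      ((z b q r ω : ℤ) : ZMod (b ^ K)) = (n : ZMod (b ^ K)) := by
    rw [Int.cast_sub, sub_eq_zero]
  by_cases h4 : ((z b q r ω : ℤ) : ZMod (b ^ K)) = (n : ZMod (b ^ K))
  · rw [if_pos h4, if_pos (h3.mpr h4)]
    push_cast
    ring
  · rw [if_neg h4, if_neg (fun h5 => h4 (h3.mp h5))]
    simp

/-- The sum of the sines over symmetric frequencies vanishes. -/
lemma sum_sin (H : ℕ) (y : ℝ) : ∑ k ∈ Kz H, Real.sin (2 * Real.pi * (k * y)) = 0 := by
  have h1 : ∑ k ∈ Kz H, Real.sin (2 * Real.pi * (k * y))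
      = ∑ k ∈ Kz H, Real.sin (2 * Real.pi * (((-k : ℤ) : ℝ) * y)) := by
    refine sum_nbij' (fun k => -k) (fun k => -k) ?_ ?_ ?_ ?_ ?_
    · intro k hk
      simp only [Kz, mem_erase, mem_Icc] at hk ⊢
      refine ⟨by simpa using hk.1, by omega, by omega⟩
    · intro k hk
      simp only [Kz, mem_erase, mem_Icc] at hk ⊢
      refine ⟨by simpa using hk.1, by omega, by omega⟩
    · intro k _; simp
    · intro k _; simp
    · intro k _; simp
  have h2 : ∑ k ∈ Kz H, Real.sin (2 * Real.pi * (((-k : ℤ) : ℝ) * y))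
      = -∑ k ∈ Kz H, Real.sin (2 * Real.pi * (k * y)) := by
    rw [← sum_neg_distrib]
    refine sum_congr rfl fun k _ => ?_
    rw [← Real.sin_neg]
    congr 1
    push_cast
    ring
  rw [h2] at h1
  linarith

lemma one_add_ka (H : ℕ) (Δ y : ℝ) :
    ((1 + Δ * ka H y : ℝ) : ℂ) = ∑ k ∈ Icc (-(H : ℤ)) H,
      ((if k = 0 then 1 else Δ / (2 * H) : ℝ) : ℂ) * e (k * y) := by
  have h0 : (0 : ℤ) ∈ Icc (-(H : ℤ)) H := by simp
  rw [← add_sum_erase _ _ h0]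
  have h1 : ∀ k ∈ (Icc (-(H : ℤ)) H).erase 0,
      ((if k = 0 then 1 else Δ / (2 * H) : ℝ) : ℂ) * e (k * y)
        = (Δ / (2 * H) : ℂ) * ((Real.cos (2 * Real.pi * (k * y)) : ℂ)
          + (Real.sin (2 * Real.pi * (k * y)) : ℂ) * Complex.I) := by
    intro k hk
    rw [if_neg (ne_of_mem_erase hk), e_eq]
    push_cast
    ring
  rw [sum_congr rfl h1, ← mul_sum, sum_add_distrib, ← sum_mul]
  have h2 : ∑ k ∈ (Icc (-(H : ℤ)) H).erase 0, (Real.sin (2 * Real.pi * (k * y)) : ℂ) = 0 := by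
    rw [← Complex.ofReal_sum]
    have := sum_sin H y
    unfold Kz at this
    rw [this]
    simp
  rw [h2]
  unfold ka Kz
  simp only [if_true, Int.cast_zero, zero_mul, e_zero]
  push_cast
  ring

/-- The expansion of the twist. -/
lemma R_eq (b q r m K H : ℕ) (hb : 2 ≤ b) (hK : r + m * q ≤ K) (Δ : ℝ) (d : ℤ) :
    (R b q r m H Δ d : ℂ) = ∑ h ∈ Hs m H, (rho H Δ h : ℂ) *
      e (d * ((sh b q r K h : ℝ) / (b : ℝ) ^ K)) := by
  have hb0 : (b : ℝ) ≠ 0 := by positivity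
  unfold R
  rw [Complex.ofReal_prod]
  simp only [one_add_ka]
  rw [Finset.prod_univ_sum]
  unfold Hs
  refine sum_congr rfl fun h _ => ?_
  rw [prod_mul_distrib, ← e_sum]
  unfold rho
  rw [Complex.ofReal_prod]
  congr 2
  unfold sh
  push_cast
  rw [sum_div, mul_sum]
  refine sum_congr rfl fun B _ => ?_
  have h1 : r + ((B : ℕ) + 1) * q ≤ K := by
    have h2 : ((B : ℕ) + 1) * q ≤ m * q := Nat.mul_le_mul_right q B.2
    omega
  have h3 : (b : ℝ) ^ K = (b : ℝ) ^ (K - (r + ((B : ℕ) + 1) * q)) * (b : ℝ) ^ (r + ((B : ℕ) + 1) * q) := by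
    rw [← pow_add, Nat.sub_add_cancel h1]
  rw [h3]
  field_simp

/-- `F` as a double sum. -/
lemma F_eq (x : ℕ) (S : Finset ℕ) (j : ℤ) :
    (F x S j : ℂ) = ∑ a ∈ S, ∑ c ∈ S, e (((a : ℝ) - c) * ((j : ℝ) / x)) := by
  unfold F
  rw [← Complex.normSq_eq_norm_sq, Complex.normSq_eq_conj_mul_self, map_sum, mul_comm, sum_mul_sum]
  refine sum_congr rfl fun a _ => sum_congr rfl fun c _ => ?_
  rw [e_conj, ← e_add]
  congr 1
  ring

lemma comm4 {ι : Type*} (s : Finset ι) (S : Finset ℕ) (f : ℕ → ℕ → ℕ → ℕ → ι → ℂ) :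
    ∑ a ∈ S, ∑ a' ∈ S, ∑ c ∈ S, ∑ c' ∈ S, ∑ j ∈ s, f a a' c c' j =
      ∑ j ∈ s, ∑ a ∈ S, ∑ a' ∈ S, ∑ c ∈ S, ∑ c' ∈ S, f a a' c c' j := by
  have h1 : ∀ a a' c, ∑ c' ∈ S, ∑ j ∈ s, f a a' c c' j = ∑ j ∈ s, ∑ c' ∈ S, f a a' c c' j :=
    fun _ _ _ => sum_comm
  simp only [h1]
  have h2 : ∀ a a', ∑ c ∈ S, ∑ j ∈ s, ∑ c' ∈ S, f a a' c c' j =
    ∑ j ∈ s, ∑ c ∈ S, ∑ c' ∈ S, f a a' c c' j := fun _ _ => sum_comm
  simp only [h2]
  have h3 : ∀ a, ∑ a' ∈ S, ∑ j ∈ s, ∑ c ∈ S, ∑ c' ∈ S, f a a' c c' j =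
    ∑ j ∈ s, ∑ a' ∈ S, ∑ c ∈ S, ∑ c' ∈ S, f a a' c c' j := fun _ => sum_comm
  simp only [h3]
  exact sum_comm

lemma split4 (S : Finset ℕ) (k : ℂ) (f g : ℕ → ℕ → ℂ) :
    ∑ a ∈ S, ∑ a' ∈ S, ∑ c ∈ S, ∑ c' ∈ S, k * (f a c * g a' c') =
      k * ((∑ a ∈ S, ∑ c ∈ S, f a c) * ∑ a' ∈ S, ∑ c' ∈ S, g a' c') := by
  have h1 : ∀ a a', ∑ c ∈ S, ∑ c' ∈ S, k * (f a c * g a' c') =
      k * ((∑ c ∈ S, f a c) * ∑ c' ∈ S, g a' c') := by
    intro a a'
    rw [sum_mul_sum, mul_sum]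
    refine sum_congr rfl fun c _ => ?_
    rw [mul_sum]
  simp only [h1]
  rw [sum_mul_sum, mul_sum]
  refine sum_congr rfl fun c _ => ?_
  rw [mul_sum]

theorem stA2 : StA2 := by
  intro b q r m K H p Δ hb hK hH S
  have hb0 : (b : ℝ) ≠ 0 := by positivity
  apply Complex.ofReal_injective
  have h1 : ∀ a a' c c' : ℕ, (b : ℂ) ^ K *
      ((law b q r m K p ((c : ZMod (b ^ K)) + c' - a - a') * R b q r m H Δ ((a : ℤ) - c) : ℝ) : ℂ)
      = ∑ j ∈ range (b ^ K), ∑ h ∈ Hs m H, (nuhat b q r m K p j : ℂ) * (rho H Δ h : ℂ) *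
        (e (((a : ℝ) - c) * (((j + sh b q r K h : ℤ) : ℝ) / ((b ^ K : ℕ) : ℝ))) *
          e (((a' : ℝ) - c') * ((j : ℝ) / ((b ^ K : ℕ) : ℝ)))) := by
    intro a a' c c'
    have h2 : (c : ZMod (b ^ K)) + c' - a - a' = (((c : ℤ) + c' - a - a' : ℤ) : ZMod (b ^ K)) := by
      push_cast
      ring
    rw [h2, Complex.ofReal_mul, ← mul_assoc, law_eq b q r m K hb, R_eq b q r m K H hb hK,
      sum_mul_sum]
    refine sum_congr rfl fun j _ => sum_congr rfl fun h _ => ?_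
    rw [← e_add]
    have h3 : (nuhat b q r m K p j : ℂ) * e (-((((c : ℤ) + c' - a - a' : ℤ) : ℝ) *
        ((j : ℝ) / (b : ℝ) ^ K))) * ((rho H Δ h : ℂ) *
        e ((((a : ℤ) - c : ℤ) : ℝ) * ((sh b q r K h : ℝ) / (b : ℝ) ^ K)))
        = (nuhat b q r m K p j : ℂ) * (rho H Δ h : ℂ) * (e (-((((c : ℤ) + c' - a - a' : ℤ) : ℝ) *
        ((j : ℝ) / (b : ℝ) ^ K))) * e ((((a : ℤ) - c : ℤ) : ℝ) *
          ((sh b q r K h : ℝ) / (b : ℝ) ^ K))) := by ring
    rw [h3, ← e_add]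
    congr 2
    push_cast
    ring
  have h4 : (((b : ℝ) ^ K * X b q r m K H p Δ S : ℝ) : ℂ) =
      ∑ a ∈ S, ∑ a' ∈ S, ∑ c ∈ S, ∑ c' ∈ S, ∑ j ∈ range (b ^ K), ∑ h ∈ Hs m H,
        (nuhat b q r m K p j : ℂ) * (rho H Δ h : ℂ) *
        (e (((a : ℝ) - c) * (((j + sh b q r K h : ℤ) : ℝ) / ((b ^ K : ℕ) : ℝ))) *
          e (((a' : ℝ) - c') * ((j : ℝ) / ((b ^ K : ℕ) : ℝ)))) := by
    unfold X
    rw [Complex.ofReal_mul, Complex.ofReal_pow, Complex.ofReal_natCast, Complex.ofReal_sum, mul_sum]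
    refine sum_congr rfl fun a _ => ?_
    rw [Complex.ofReal_sum, mul_sum]
    refine sum_congr rfl fun a' _ => ?_
    rw [Complex.ofReal_sum, mul_sum]
    refine sum_congr rfl fun c _ => ?_
    rw [Complex.ofReal_sum, mul_sum]
    refine sum_congr rfl fun c' _ => ?_
    exact h1 a a' c c'
  rw [h4, Complex.ofReal_sum]
  have h5 : ∀ j ∈ range (b ^ K), ((nuhat b q r m K p j *
      ∑ h ∈ Hs m H, rho H Δ h * (F (b ^ K) S j * F (b ^ K) S (j + sh b q r K h)) : ℝ) : ℂ) =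
      ∑ h ∈ Hs m H, ∑ a ∈ S, ∑ a' ∈ S, ∑ c ∈ S, ∑ c' ∈ S,
        (nuhat b q r m K p j : ℂ) * (rho H Δ h : ℂ) *
        (e (((a : ℝ) - c) * (((j + sh b q r K h : ℤ) : ℝ) / ((b ^ K : ℕ) : ℝ))) *
          e (((a' : ℝ) - c') * ((j : ℝ) / ((b ^ K : ℕ) : ℝ)))) := by
    intro j _
    rw [Complex.ofReal_mul, Complex.ofReal_sum, mul_sum]
    refine sum_congr rfl fun h _ => ?_
    rw [Complex.ofReal_mul, Complex.ofReal_mul, F_eq, F_eq]
    have h6 := split4 S ((nuhat b q r m K p j : ℂ) * (rho H Δ h : ℂ))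
      (fun a c => e (((a : ℝ) - c) * (((j + sh b q r K h : ℤ) : ℝ) / ((b ^ K : ℕ) : ℝ))))
      (fun a' c' => e (((a' : ℝ) - c') * ((j : ℝ) / ((b ^ K : ℕ) : ℝ))))
    rw [h6]
    simp only [Int.cast_natCast]
    ring
  rw [sum_congr rfl h5, comm4]
  refine sum_congr rfl fun j _ => ?_
  rw [comm4]

end Pool.Agent.Helper99.SC
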