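import Pool.Agent.Helper99.SC.Four

set_option autoImplicit false

/-!
StA3: Parseval for the energy. StT: Cauchy-Schwarz for the convolution with the law.
-/

namespace Pool.Agent.Helper99.SC

open Finset Pool.Agent.Helper7.SC

theorem stA3 : StA3 := by
  intro x hx S
  apply Complex.ofReal_injective
  rw [Complex.ofReal_sum]
  have h1 : ∀ j ∈ range x, ((F x S j ^ 2 : ℝ) : ℂ) = ∑ a ∈ S, ∑ a' ∈ S, ∑ c ∈ S, ∑ c' ∈ S,
      e (j * ((((a : ℤ) + a' - c - c' : ℤ) : ℝ) / x)) := by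
    intro j _
    have h6 := split4 S 1 (fun a c => e (((a : ℝ) - c) * (((j : ℤ) : ℝ) / x)))
      (fun a c => e (((a : ℝ) - c) * (((j : ℤ) : ℝ) / x)))
    rw [pow_two, Complex.ofReal_mul, F_eq, ← one_mul ((∑ a ∈ S, ∑ c ∈ S, _) * _), ← h6]
    refine sum_congr rfl fun a _ => sum_congr rfl fun a' _ => sum_congr rfl fun c _ =>
      sum_congr rfl fun c' _ => ?_
    rw [one_mul, ← e_add]
    congr 1
    push_cast
    ring
  rw [sum_congr rfl h1, ← comm4, Complex.ofReal_mul]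
  unfold Ecyc
  rw [Complex.ofReal_sum, mul_sum]
  refine sum_congr rfl fun a _ => ?_
  rw [Complex.ofReal_sum, mul_sum]
  refine sum_congr rfl fun a' _ => ?_
  rw [Complex.ofReal_sum, mul_sum]
  refine sum_congr rfl fun c _ => ?_
  rw [Complex.ofReal_sum, mul_sum]
  refine sum_congr rfl fun c' _ => ?_
  rw [orth x hx]
  have h2 : (((a : ℤ) + a' - c - c' : ℤ) : ZMod x) = 0 ↔
      ((a + a' : ℕ) : ZMod x) = ((c + c' : ℕ) : ZMod x) := by
    push_cast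
    rw [sub_sub, sub_eq_zero]
  by_cases h3 : ((a + a' : ℕ) : ZMod x) = ((c + c' : ℕ) : ZMod x)
  · rw [if_pos h3, if_pos (h2.mpr h3)]
    simp
  · rw [if_neg h3, if_neg (fun h4 => h3 (h2.mp h4))]
    simp

lemma w_nonneg (Q : ℕ) (y : ℝ) : 0 ≤ w Q y := sq_nonneg _

lemma norm_e (y : ℝ) : ‖e y‖ = 1 := by
  unfold e
  have : (2 * Real.pi * y * Complex.I : ℂ) = ((2 * Real.pi * y : ℝ) : ℂ) * Complex.I := by
    push_cast; ring
  rw [this, Complex.norm_exp_ofReal_mul_I]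

lemma w_le_one {Q : ℕ} (hQ : 0 < Q) (y : ℝ) : w Q y ≤ 1 := by
  unfold w
  have hQ' : (0 : ℝ) < Q := by exact_mod_cast hQ
  have h1 : ‖(1 / Q : ℂ) * ∑ τ ∈ range Q, e (τ * y)‖ ≤ 1 := by
    rw [norm_mul, norm_div, norm_one, Complex.norm_natCast, one_div, inv_mul_le_iff₀ hQ', mul_one]
    refine (norm_sum_le _ _).trans ?_
    simp [norm_e]
  exact pow_le_one₀ (norm_nonneg _) h1

lemma v_nonneg {Q : ℕ} {p : ℝ} (hp1 : p ≤ 1) (hp0 : 0 ≤ p) (y : ℝ) : 0 ≤ v Q p y := by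
  unfold v
  have := w_nonneg Q y
  nlinarith

lemma v_le_one {Q : ℕ} (hQ : 0 < Q) {p : ℝ} (hp0 : 0 ≤ p) (y : ℝ) : v Q p y ≤ 1 := by
  unfold v
  have := w_le_one hQ y
  nlinarith

lemma nuhat_nonneg {b q r m K : ℕ} {p : ℝ} (hp0 : 0 ≤ p) (hp1 : p ≤ 1) (j : ℤ) :
    0 ≤ nuhat b q r m K p j := prod_nonneg fun _ _ => v_nonneg hp1 hp0 _

lemma nuhat_le_one {b q r m K : ℕ} (hb : 2 ≤ b) {p : ℝ} (hp0 : 0 ≤ p) (hp1 : p ≤ 1) (j : ℤ) :
    nuhat b q r m K p j ≤ 1 :=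
  prod_le_one (fun _ _ => v_nonneg hp1 hp0 _) fun _ _ => v_le_one (by positivity) hp0 _

/-- The transform of a function on the residues. -/
noncomputable def tf (x : ℕ) [Fintype (ZMod x)] (s : ℝ) (c : ZMod x → ℂ) (j : ℕ) : ℂ :=
  ∑ m, c m * e (s * ((m.val : ℝ) * ((j : ℝ) / x)))

lemma parseval (x : ℕ) (hx : 0 < x) [Fintype (ZMod x)] (c : ZMod x → ℂ) :
    ∑ j ∈ range x, ‖tf x (-1) c j‖ ^ 2 = x * ∑ m, ‖c m‖ ^ 2 := by
  have hne : NeZero x := ⟨hx.ne'⟩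
  apply Complex.ofReal_injective
  rw [Complex.ofReal_sum]
  have h1 : ∀ j ∈ range x, ((‖tf x (-1) c j‖ ^ 2 : ℝ) : ℂ) = ∑ m, ∑ m', c m *
      (starRingEnd ℂ) (c m') * e (j * ((((m'.val : ℤ) - (m.val : ℤ) : ℤ) : ℝ) / x)) := by
    intro j _
    rw [← Complex.normSq_eq_norm_sq, Complex.normSq_eq_conj_mul_self]
    unfold tf
    rw [map_sum, mul_comm, sum_mul_sum]
    refine sum_congr rfl fun m _ => sum_congr rfl fun m' _ => ?_
    rw [map_mul, e_conj]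
    have h2 : c m * e (-1 * ((m.val : ℝ) * ((j : ℝ) / x))) * ((starRingEnd ℂ) (c m') *
        e (-(-1 * ((m'.val : ℝ) * ((j : ℝ) / x))))) = c m * (starRingEnd ℂ) (c m') *
        (e (-1 * ((m.val : ℝ) * ((j : ℝ) / x))) * e (-(-1 * ((m'.val : ℝ) * ((j : ℝ) / x))))) := by
      ring
    rw [h2, ← e_add]
    congr 2
    push_cast
    ring
  rw [sum_congr rfl h1, sum_comm]
  rw [Complex.ofReal_mul, Complex.ofReal_sum, mul_sum]
  refine sum_congr rfl fun m _ => ?_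
  rw [sum_comm]
  have h3 : ∀ m' : ZMod x, ∑ j ∈ range x, c m * (starRingEnd ℂ) (c m') *
      e (j * ((((m'.val : ℤ) - (m.val : ℤ) : ℤ) : ℝ) / x)) =
      if m' = m then (x : ℂ) * (c m * (starRingEnd ℂ) (c m)) else 0 := by
    intro m'
    rw [← mul_sum, orth x hx]
    have h4 : (((m'.val : ℤ) - (m.val : ℤ) : ℤ) : ZMod x) = m' - m := by
      push_cast
      rw [ZMod.natCast_zmod_val, ZMod.natCast_zmod_val]
    rw [h4]
    by_cases h5 : m' = m
    · rw [if_pos h5, if_pos (sub_eq_zero.mpr h5), h5]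
      ring
    · rw [if_neg h5, if_neg (fun h6 => h5 (sub_eq_zero.mp h6)), mul_zero]
  simp only [h3]
  rw [sum_ite_eq' univ m]
  simp only [mem_univ, if_true, Complex.mul_conj, Complex.normSq_eq_norm_sq]
  push_cast
  ring

/-- The bilinear form of the law. -/
lemma bil {b q r m K : ℕ} (hb : 2 ≤ b) (p : ℝ) [Fintype (ZMod (b ^ K))]
    (g c : ZMod (b ^ K) → ℂ) :
    (b : ℂ) ^ K * ∑ n, ∑ t, (law b q r m K p t : ℂ) * (g n * c (n + t)) =
      ∑ j ∈ range (b ^ K), (nuhat b q r m K p j : ℂ) * (tf (b ^ K) 1 g j * tf (b ^ K) (-1) c j) := by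
  have hne : NeZero (b ^ K) := ⟨by positivity⟩
  have h1 : ∀ n : ZMod (b ^ K), ∑ t, (law b q r m K p t : ℂ) * (g n * c (n + t)) =
      ∑ k, (law b q r m K p (k - n) : ℂ) * (g n * c k) := by
    intro n
    exact Fintype.sum_equiv (Equiv.addLeft n) _ _ (fun t => by simp)
  simp only [h1]
  have h2 : ∀ n k : ZMod (b ^ K), (b : ℂ) ^ K * ((law b q r m K p (k - n) : ℂ) * (g n * c k)) =
      ∑ j ∈ range (b ^ K), (nuhat b q r m K p j : ℂ) *
        ((g n * e (1 * ((n.val : ℝ) * ((j : ℝ) / ((b ^ K : ℕ) : ℝ))))) *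
          (c k * e (-1 * ((k.val : ℝ) * ((j : ℝ) / ((b ^ K : ℕ) : ℝ)))))) := by
    intro n k
    have h3 : k - n = (((k.val : ℤ) - (n.val : ℤ) : ℤ) : ZMod (b ^ K)) := by
      push_cast
      rw [ZMod.natCast_zmod_val, ZMod.natCast_zmod_val]
    rw [h3, ← mul_assoc, law_eq b q r m K hb, sum_mul]
    refine sum_congr rfl fun j _ => ?_
    have h4 : (nuhat b q r m K p j : ℂ) *
        ((g n * e (1 * ((n.val : ℝ) * ((j : ℝ) / ((b ^ K : ℕ) : ℝ))))) *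
          (c k * e (-1 * ((k.val : ℝ) * ((j : ℝ) / ((b ^ K : ℕ) : ℝ)))))) =
        (nuhat b q r m K p j : ℂ) * (e (1 * ((n.val : ℝ) * ((j : ℝ) / ((b ^ K : ℕ) : ℝ)))) *
          e (-1 * ((k.val : ℝ) * ((j : ℝ) / ((b ^ K : ℕ) : ℝ))))) * (g n * c k) := by ring
    rw [h4, ← e_add]
    congr 3
    push_cast
    ring
  rw [mul_sum]
  simp only [mul_sum]
  simp only [h2]
  have h5 : ∀ n : ZMod (b ^ K), ∑ k : ZMod (b ^ K), ∑ j ∈ range (b ^ K),
      (nuhat b q r m K p j : ℂ) *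
        ((g n * e (1 * ((n.val : ℝ) * ((j : ℝ) / ((b ^ K : ℕ) : ℝ))))) *
          (c k * e (-1 * ((k.val : ℝ) * ((j : ℝ) / ((b ^ K : ℕ) : ℝ)))))) = _ := fun n =>
    sum_comm
  simp only [h5]
  rw [sum_comm]
  refine sum_congr rfl fun j _ => ?_
  unfold tf
  rw [sum_mul_sum, mul_sum]
  refine sum_congr rfl fun n _ => ?_
  rw [mul_sum]

theorem stT : StT := by
  intro b q r m K p hb hp0 hp1 _ g c hc
  have hx : 0 < b ^ K := by positivity
  have hxr : (0 : ℝ) < (b : ℝ) ^ K := by positivity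
  set U : ℂ := ∑ n, ∑ t, law b q r m K p t * (g n * c (n + t)) with hU
  set V : ℂ := ∑ n, ∑ t, law b q r m K p t * (g n * (starRingEnd ℂ) (g (n + t))) with hV
  have h1 : (b : ℂ) ^ K * U = ∑ j ∈ range (b ^ K), (nuhat b q r m K p j : ℂ) *
      (tf (b ^ K) 1 g j * tf (b ^ K) (-1) c j) := bil hb p g c
  have h2 : (b : ℂ) ^ K * V = ∑ j ∈ range (b ^ K), (nuhat b q r m K p j : ℂ) *
      (tf (b ^ K) 1 g j * tf (b ^ K) (-1) (fun n => (starRingEnd ℂ) (g n)) j) :=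
    bil hb p g (fun n => (starRingEnd ℂ) (g n))
  have h3 : ∀ j, tf (b ^ K) (-1) (fun n => (starRingEnd ℂ) (g n)) j =
      (starRingEnd ℂ) (tf (b ^ K) 1 g j) := by
    intro j
    unfold tf
    rw [map_sum]
    refine sum_congr rfl fun n _ => ?_
    rw [map_mul, e_conj]
    congr 2
    ring
  set GG : ℝ := ∑ j ∈ range (b ^ K), nuhat b q r m K p j * ‖tf (b ^ K) 1 g j‖ ^ 2 with hGG
  have h4 : (b : ℝ) ^ K * V.re = GG := by
    have h5 : (b : ℂ) ^ K * V = (GG : ℂ) := by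
      rw [h2, hGG, Complex.ofReal_sum]
      refine sum_congr rfl fun j _ => ?_
      rw [h3, Complex.mul_conj, Complex.normSq_eq_norm_sq]
      push_cast
      ring
    have h6 := congrArg Complex.re h5
    have h7 : ((b : ℂ) ^ K * V) = (((b : ℝ) ^ K : ℝ) : ℂ) * V := by push_cast; ring
    rw [h7, Complex.re_ofReal_mul, Complex.ofReal_re] at h6
    exact h6
  have h8 : ∑ j ∈ range (b ^ K), nuhat b q r m K p j * ‖tf (b ^ K) (-1) c j‖ ^ 2 ≤
      ((b : ℝ) ^ K) ^ 2 := by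
    have e1 : ∑ j ∈ range (b ^ K), nuhat b q r m K p j * ‖tf (b ^ K) (-1) c j‖ ^ 2 ≤
        ∑ j ∈ range (b ^ K), ‖tf (b ^ K) (-1) c j‖ ^ 2 := by
      refine sum_le_sum fun j _ => ?_
      exact mul_le_of_le_one_left (sq_nonneg _) (nuhat_le_one hb hp0 hp1 _)
    have e2 := parseval (b ^ K) hx c
    have e3 : ∑ m : ZMod (b ^ K), ‖c m‖ ^ 2 ≤ ((b ^ K : ℕ) : ℝ) := by
      have hne : NeZero (b ^ K) := ⟨by positivity⟩
      calc ∑ m : ZMod (b ^ K), ‖c m‖ ^ 2 ≤ ∑ _m : ZMod (b ^ K), (1 : ℝ) :=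
            sum_le_sum fun m _ => pow_le_one₀ (norm_nonneg _) (hc m)
        _ = ((b ^ K : ℕ) : ℝ) := by
            rw [sum_const, card_univ, nsmul_eq_mul, mul_one, ZMod.card]
    push_cast at e2 e3
    rw [e2] at e1
    refine e1.trans ?_
    rw [pow_two]
    exact mul_le_mul_of_nonneg_left e3 hxr.le
  have hG0 : 0 ≤ GG := sum_nonneg fun j _ => mul_nonneg (nuhat_nonneg hp0 hp1 _) (sq_nonneg _)
  have h9 : ‖(b : ℂ) ^ K * U‖ ^ 2 ≤ GG * ((b : ℝ) ^ K) ^ 2 := by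
    rw [h1]
    have e1 : ‖∑ j ∈ range (b ^ K), (nuhat b q r m K p j : ℂ) *
      (tf (b ^ K) 1 g j * tf (b ^ K) (-1) c j)‖ ≤ ∑ j ∈ range (b ^ K),
        (√(nuhat b q r m K p j) * ‖tf (b ^ K) 1 g j‖) *
          (√(nuhat b q r m K p j) * ‖tf (b ^ K) (-1) c j‖) := by
      refine (norm_sum_le _ _).trans (sum_le_sum fun j _ => ?_)
      have e2 := nuhat_nonneg (b := b) (q := q) (r := r) (m := m) (K := K) hp0 hp1 (j : ℤ)
      rw [norm_mul, norm_mul, Complex.norm_real, Real.norm_of_nonneg e2]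
      have e3 := Real.mul_self_sqrt e2
      calc nuhat b q r m K p j * (‖tf (b ^ K) 1 g j‖ * ‖tf (b ^ K) (-1) c j‖)
          = (√(nuhat b q r m K p j) * √(nuhat b q r m K p j)) *
            (‖tf (b ^ K) 1 g j‖ * ‖tf (b ^ K) (-1) c j‖) := by rw [e3]
        _ ≤ _ := by rw [mul_mul_mul_comm]
    have e4 := sum_mul_sq_le_sq_mul_sq (range (b ^ K))
      (fun j => √(nuhat b q r m K p j) * ‖tf (b ^ K) 1 g j‖)
      (fun j => √(nuhat b q r m K p j) * ‖tf (b ^ K) (-1) c j‖)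
    have e5 : ∀ f : ℕ → ℝ, ∑ j ∈ range (b ^ K), (√(nuhat b q r m K p j) * f j) ^ 2 =
        ∑ j ∈ range (b ^ K), nuhat b q r m K p j * f j ^ 2 := by
      intro f
      refine sum_congr rfl fun j _ => ?_
      rw [mul_pow, Real.sq_sqrt (nuhat_nonneg hp0 hp1 _)]
    rw [e5, e5] at e4
    refine (pow_le_pow_left₀ (norm_nonneg _) e1 2).trans (e4.trans ?_)
    exact mul_le_mul_of_nonneg_left h8 hG0
  rw [norm_mul, norm_pow, Complex.norm_natCast, mul_pow, mul_comm GG] at h9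
  have h10 := le_of_mul_le_mul_left h9 (by positivity)
  rw [h4]
  exact h10

end Pool.Agent.Helper99.SC
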