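import Pool.Agent.Helper57.LJ.Defs

set_option autoImplicit false

/-!
The sensitivity of a function of few digits.
-/

namespace Pool.Agent.Helper99.SC

open Finset Pool.Agent.Helper57.LJ

lemma geo (b : ℕ) (hb : 2 ≤ b) (q : ℕ) : ∑ j ∈ range (q + 1), b ^ j ≤ 2 * b ^ q := by
  induction q with
  | zero => simp
  | succ q ih =>
    rw [sum_range_succ]
    have : 2 * b ^ q ≤ b ^ (q + 1) := by
      rw [pow_succ, mul_comm]
      exact Nat.mul_le_mul_left _ hb
    omega

lemma count_mod (b : ℕ) (hb : 2 ≤ b) {K q j : ℕ} (hq : q < K) (hj : j ≤ q) :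
    #{n ∈ range (b ^ K) | b ^ q - b ^ j ≤ n % b ^ q} ≤ b ^ (K - q) * b ^ j := by
  have hb0 : 0 < b ^ q := by positivity
  have hjq : b ^ j ≤ b ^ q := Nat.pow_le_pow_right (by omega) hj
  have hKq : b ^ K = b ^ (K - q) * b ^ q := by rw [← pow_add, Nat.sub_add_cancel hq.le]
  have h1 : #(range (b ^ (K - q)) ×ˢ range (b ^ j)) = b ^ (K - q) * b ^ j := by simp
  rw [← h1]
  refine card_le_card_of_injOn (fun n => (n / b ^ q, n % b ^ q - (b ^ q - b ^ j))) ?_ ?_
  · intro n hn
    simp only [coe_filter, mem_range, Set.mem_ofPred_eq] at hn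
    simp only [coe_product, coe_range, Set.mem_prod, Set.mem_Iio]
    refine ⟨?_, ?_⟩
    · rw [Nat.div_lt_iff_lt_mul hb0, ← hKq]
      exact hn.1
    · have := Nat.mod_lt n hb0
      have := hn.2
      have hj0 : 0 < b ^ j := by positivity
      omega
  · intro n hn n' hn' h
    simp only [coe_filter, mem_range, Set.mem_ofPred_eq] at hn hn'
    simp only [Prod.mk.injEq] at h
    have h2 : n % b ^ q = n' % b ^ q := by
      have := hn.2
      have := hn'.2
      omega
    rw [← Nat.div_add_mod n (b ^ q), ← Nat.div_add_mod n' (b ^ q), h.1, h2]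

/-- Adding `b ^ j` changes the digit `q` only if `j ≤ q` and there is a carry into it. -/
lemma dig_change (b : ℕ) (hb : 2 ≤ b) {K q j n : ℕ} (hj : j < K) (hn : n < b ^ K)
    (h : dig b q n ≠ dig b q ((n + b ^ j) % b ^ K)) :
    q < K ∧ j ≤ q ∧ b ^ q - b ^ j ≤ n % b ^ q := by
  have hbK : 0 < b ^ K := by positivity
  have hb0 : 0 < b ^ q := by positivity
  have hqK : q < K := by
    by_contra hcon
    push Not at hcon
    apply h
    have h1 : b ^ K ≤ b ^ q := Nat.pow_le_pow_right (by omega) hcon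
    have h2 : (n + b ^ j) % b ^ K < b ^ K := Nat.mod_lt _ hbK
    unfold dig
    rw [Nat.div_eq_of_lt (lt_of_lt_of_le hn h1), Nat.div_eq_of_lt (lt_of_lt_of_le h2 h1)]
  have hd : dig b q ((n + b ^ j) % b ^ K) = dig b q (n + b ^ j) := by
    unfold dig
    have h1 : b ^ K = b ^ q * (b * b ^ (K - q - 1)) := by
      rw [← pow_succ', ← pow_add]
      congr 1
      omega
    rw [h1, Nat.mod_mul_right_div_self, Nat.mod_mul_right_mod]
  rw [hd] at h
  have hjq : j ≤ q := by
    by_contra hcon
    push Not at hcon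
    apply h
    unfold dig
    have h1 : b ^ j = b * b ^ (j - q - 1) * b ^ q := by
      rw [← pow_succ', ← pow_add]
      congr 1
      omega
    rw [h1, Nat.add_mul_div_right _ _ hb0, Nat.add_mul_mod_self_left]
  refine ⟨hqK, hjq, ?_⟩
  by_contra hcon
  push Not at hcon
  apply h
  unfold dig
  congr 1
  have h1 : (n + b ^ j) / b ^ q = n / b ^ q := by
    have h2 := Nat.div_add_mod n (b ^ q)
    have h3 : n + b ^ j = (n % b ^ q + b ^ j) + b ^ q * (n / b ^ q) := by omega
    rw [h3, Nat.add_mul_div_left _ _ hb0, Nat.div_eq_of_lt (Nat.add_lt_of_lt_sub hcon), zero_add]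
  rw [h1]

theorem dig_sens (b : ℕ) (hb : 2 ≤ b) (K q : ℕ) :
    ∑ j ∈ range K, #{n ∈ range (b ^ K) | dig b q n ≠ dig b q ((n + b ^ j) % b ^ K)}
      ≤ 2 * b ^ K := by
  by_cases hq : q < K
  · have h1 : ∀ j ∈ range K, #{n ∈ range (b ^ K) | dig b q n ≠ dig b q ((n + b ^ j) % b ^ K)} ≤
        if j ∈ range (q + 1) then b ^ (K - q) * b ^ j else 0 := by
      intro j hj
      rw [mem_range] at hj
      split_ifs with h2
      · rw [mem_range] at h2
        refine le_trans (card_le_card ?_) (count_mod b hb hq (by omega : j ≤ q))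
        intro n hn
        simp only [mem_filter, mem_range] at hn ⊢
        exact ⟨hn.1, (dig_change b hb hj hn.1 hn.2).2.2⟩
      · rw [mem_range] at h2
        rw [Nat.le_zero, card_eq_zero, filter_eq_empty_iff]
        intro n hn h3
        rw [mem_range] at hn
        have := (dig_change b hb hj hn h3).2.1
        omega
    refine (sum_le_sum h1).trans ?_
    rw [← sum_filter]
    have h2 : (range K).filter (fun j => j ∈ range (q + 1)) = range (q + 1) := by
      ext j
      simp only [mem_filter, mem_range]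
      omega
    rw [h2, ← mul_sum]
    calc b ^ (K - q) * ∑ j ∈ range (q + 1), b ^ j ≤ b ^ (K - q) * (2 * b ^ q) :=
          Nat.mul_le_mul_left _ (geo b hb q)
      _ = 2 * b ^ K := by
          have : b ^ K = b ^ (K - q) * b ^ q := by rw [← pow_add, Nat.sub_add_cancel hq.le]
          rw [this]
          ring
  · have h1 : ∀ j ∈ range K,
        #{n ∈ range (b ^ K) | dig b q n ≠ dig b q ((n + b ^ j) % b ^ K)} = 0 := by
      intro j hj
      rw [mem_range] at hj
      rw [card_eq_zero, filter_eq_empty_iff]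
      intro n hn h3
      rw [mem_range] at hn
      exact hq (dig_change b hb hj hn h3).1
    rw [sum_congr rfl h1]
    simp

/-- A function of at most `w` digits changes for at most `2 w b ^ K` of the pairs `(n, j)`. -/
theorem few_sens (b : ℕ) (hb : 2 ≤ b) (K w : ℕ) (g : ℕ → ℕ) (Q : Finset ℕ) (hQ : #Q ≤ w)
    (hg : ∀ m n, (∀ q ∈ Q, dig b q m = dig b q n) → g m = g n) :
    ∑ j ∈ range K, (#{n ∈ range (b ^ K) | g n ≠ g ((n + b ^ j) % b ^ K)} : ℝ) ≤
      2 * w * (b : ℝ) ^ K := by
  have h1 : ∀ j ∈ range K, #{n ∈ range (b ^ K) | g n ≠ g ((n + b ^ j) % b ^ K)} ≤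
      ∑ q ∈ Q, #{n ∈ range (b ^ K) | dig b q n ≠ dig b q ((n + b ^ j) % b ^ K)} := by
    intro j _
    refine le_trans (card_le_card ?_) card_biUnion_le
    intro n hn
    simp only [mem_filter, mem_biUnion] at hn ⊢
    by_contra hcon
    push Not at hcon
    exact hn.2 (hg _ _ fun q hq => hcon q hq hn.1)
  have h2 : ∑ j ∈ range K, #{n ∈ range (b ^ K) | g n ≠ g ((n + b ^ j) % b ^ K)} ≤
      2 * w * b ^ K := by
    refine (sum_le_sum h1).trans ?_
    rw [sum_comm]
    calc ∑ q ∈ Q, ∑ j ∈ range K,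
          #{n ∈ range (b ^ K) | dig b q n ≠ dig b q ((n + b ^ j) % b ^ K)}
        ≤ ∑ _q ∈ Q, 2 * b ^ K := sum_le_sum fun q _ => dig_sens b hb K q
      _ = #Q * (2 * b ^ K) := by simp
      _ ≤ w * (2 * b ^ K) := Nat.mul_le_mul_right _ hQ
      _ = 2 * w * b ^ K := by ring
  exact_mod_cast h2

end Pool.Agent.Helper99.SC
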