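import Pool.Agent.Helper99.SC.Pars

set_option autoImplicit false

/-!
The double sum over a set of residues as a sum of quadratic forms of the law.
-/

namespace Pool.Agent.Helper99.SC

open Finset Pool.Agent.Helper7.SC

lemma sum_zmod {x : ℕ} (hx : 0 < x) [Fintype (ZMod x)] {D : Finset ℕ} (hD : D ⊆ range x)
    {M : Type*} [AddCommMonoid M] (ψ : ℕ → M) :
    ∑ n : ZMod x, (if n.val ∈ D then ψ n.val else 0) = ∑ n ∈ D, ψ n := by
  have hne : NeZero x := ⟨hx.ne'⟩
  rw [← sum_filter]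
  refine sum_nbij' (fun n => n.val) (fun n => (n : ZMod x)) ?_ ?_ ?_ ?_ ?_
  · intro n hn
    simp only [mem_filter, mem_univ, true_and] at hn
    exact hn
  · intro n hn
    simp only [mem_filter, mem_univ, true_and]
    rw [ZMod.val_natCast, Nat.mod_eq_of_lt (mem_range.mp (hD hn))]
    exact hn
  · intro n _
    exact ZMod.natCast_zmod_val n
  · intro n hn
    rw [ZMod.val_natCast, Nat.mod_eq_of_lt (mem_range.mp (hD hn))]
  · intro n _
    rfl

/-- The character of the frequency `k / y` on the values of `f`, supported on `D`. -/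
noncomputable def gk (x : ℕ) (D : Finset ℕ) (f : ℕ → ℕ) (y : ℝ) (k : ℤ) (n : ZMod x) : ℂ :=
  if n.val ∈ D then e (k * ((f n.val : ℝ) / y)) else 0

lemma norm_gk_le (x : ℕ) (D : Finset ℕ) (f : ℕ → ℕ) (y : ℝ) (k : ℤ) (n : ZMod x) :
    ‖gk x D f y k n‖ ≤ 1 := by
  unfold gk
  split_ifs
  · exact (norm_e _).le
  · simp

lemma quad {x : ℕ} (hx : 0 < x) [Fintype (ZMod x)] {D : Finset ℕ} (hD : D ⊆ range x)
    (f : ℕ → ℕ) (y : ℝ) (k : ℤ) (P : ZMod x → ℝ) :
    (∑ n, ∑ t, (P t : ℂ) * (gk x D f y k n * (starRingEnd ℂ) (gk x D f y k (n + t)))).re =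
      ∑ n ∈ D, ∑ n' ∈ D, P ((n' : ZMod x) - n) *
        Real.cos (2 * Real.pi * (k * (((f n : ℝ) - f n') / y))) := by
  have hne : NeZero x := ⟨hx.ne'⟩
  have h1 : ∀ n : ZMod x, ∑ t, (P t : ℂ) * (gk x D f y k n * (starRingEnd ℂ) (gk x D f y k (n + t)))
      = ∑ m, (P (m - n) : ℂ) * (gk x D f y k n * (starRingEnd ℂ) (gk x D f y k m)) := by
    intro n
    exact Fintype.sum_equiv (Equiv.addLeft n) _ _ (fun t => by simp)
  simp only [h1]
  have h2 : ∀ n m : ZMod x, (P (m - n) : ℂ) * (gk x D f y k n * (starRingEnd ℂ) (gk x D f y k m))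
      = if n.val ∈ D then (if m.val ∈ D then (P (((m.val : ℕ) : ZMod x) - ((n.val : ℕ) : ZMod x)) : ℂ)
        * e (k * (((f n.val : ℝ) - f m.val) / y)) else 0) else 0 := by
    intro n m
    unfold gk
    split_ifs with h3 h4
    · rw [e_conj, ← e_add, ZMod.natCast_zmod_val, ZMod.natCast_zmod_val]
      congr 2
      ring
    · simp
    · simp
    · simp
  simp only [h2]
  have h5 : ∀ n : ZMod x, ∑ m : ZMod x, (if n.val ∈ D then (if m.val ∈ D then
      (P (((m.val : ℕ) : ZMod x) - ((n.val : ℕ) : ZMod x)) : ℂ)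
        * e (k * (((f n.val : ℝ) - f m.val) / y)) else 0) else 0) =
      if n.val ∈ D then ∑ n' ∈ D, (P ((n' : ZMod x) - ((n.val : ℕ) : ZMod x)) : ℂ)
        * e (k * (((f n.val : ℝ) - f n') / y)) else 0 := by
    intro n
    split_ifs with h3
    · exact sum_zmod hx hD (fun n' => (P ((n' : ZMod x) - ((n.val : ℕ) : ZMod x)) : ℂ)
        * e (k * (((f n.val : ℝ) - f n') / y)))
    · simp
  simp only [h5]
  rw [sum_zmod hx hD (fun n => ∑ n' ∈ D, (P ((n' : ZMod x) - (n : ZMod x)) : ℂ)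
        * e (k * (((f n : ℝ) - f n') / y))), Complex.re_sum]
  refine sum_congr rfl fun n _ => ?_
  rw [Complex.re_sum]
  refine sum_congr rfl fun n' _ => ?_
  rw [Complex.re_ofReal_mul, e_eq]
  simp only [Complex.add_re, Complex.ofReal_re, Complex.mul_re, Complex.I_re, Complex.I_im,
    Complex.ofReal_im]
  ring

/-- The double sum with the kernel `ka`. -/
theorem dbl {x : ℕ} (hx : 0 < x) [Fintype (ZMod x)] {D : Finset ℕ} (hD : D ⊆ range x)
    (f : ℕ → ℕ) (y : ℝ) (H : ℕ) (P : ZMod x → ℝ) :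
    ∑ n ∈ D, ∑ n' ∈ D, P ((n' : ZMod x) - n) * ka H (((f n : ℝ) - f n') / y) =
      1 / (2 * H) * ∑ k ∈ Kz H,
        (∑ n, ∑ t, (P t : ℂ) * (gk x D f y k n * (starRingEnd ℂ) (gk x D f y k (n + t)))).re := by
  simp only [quad hx hD f y _ P]
  have h : ∑ k ∈ Kz H, ∑ n ∈ D, ∑ n' ∈ D, P ((n' : ZMod x) - n) *
        Real.cos (2 * Real.pi * (k * (((f n : ℝ) - f n') / y))) =
      ∑ n ∈ D, ∑ n' ∈ D, ∑ k ∈ Kz H, P ((n' : ZMod x) - n) *
        Real.cos (2 * Real.pi * (k * (((f n : ℝ) - f n') / y))) := by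
    rw [sum_comm]
    refine sum_congr rfl fun n _ => ?_
    rw [sum_comm]
  rw [h, mul_sum]
  refine sum_congr rfl fun n _ => ?_
  rw [mul_sum]
  refine sum_congr rfl fun n' _ => ?_
  unfold ka
  rw [← mul_sum]
  ring

end Pool.Agent.Helper99.SC
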